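import Mathlib
import Pool.Agent.R504.PowEval
import Pool.Agent.R504.SignLog

set_option autoImplicit false

/-!
# The signs of `f_{A,n}(-1)`, `A = {1, 4, 7, ...}`, are not eventually periodic (MP_5217bf_nt)

Let `F(x) = ∏ (1 + x^(3m+1))^(-1) = ∑ f(n) x^n`. If the signs of `f(n)` were eventually periodic with
period `p`, then `∑ |f(n)| r^n ≤ C + ∑_{z^p = 1} |F(z r)|` for `0 < r < 1` (discrete Fourier transform).
For `|ζ| = 1` and `Re s = 1`, `τ log |F(ζ e^(-τ s))|` tends to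
`Re ∑_{k ≥ 1, ζ^(3k) = 1} (-ζ)^k / (3 k^2 s)` as `τ → 0+` (dominated convergence). For `s = 1` this limit
is less than `0.183` for all `ζ`, while it is greater than `0.19` for `ζ = e^(2πi/3)` and
`s = 1 - (√3/2) i`. This contradicts `|F(ζ e^(-τ s))| ≤ ∑ |f(n)| e^(-τ n)`.
-/

namespace Pool.Agent.Results.MP_5217bf_nt.NotPeriodic

open PowerSeries Filter Topology Pool.Agent.R504 Pool.Agent.R504.PowEval Pool.Agent.R504.SignLog

/-- `f_{A,n}(-1)` for `A = {3m+1 : m ≥ 0}`, the coefficient of `x^n` in `∏_m (1 + x^(3m+1))^(-1)`; the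
factors with `m > n` do not influence this coefficient and are omitted -/
noncomputable def f (n : ℕ) : ℤ :=
  coeff n (∏ m ∈ Finset.range (n + 1), invOfUnit (1 + X ^ (3 * m + 1) : ℤ⟦X⟧) 1)

lemma f_eq (n : ℕ) : f n = a ℤ n := by
  unfold f a G
  congr 1
  apply Finset.prod_congr rfl
  intro m _
  exact E_eq_inv ℤ _ (by omega)

lemma a_eq (n : ℕ) : a ℂ n = (f n : ℂ) := by
  rw [f_eq]
  unfold a G
  have h : (∏ m ∈ Finset.range (n + 1), E ℂ (3 * m + 1)) =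
      PowerSeries.map (Int.castRingHom ℂ) (∏ m ∈ Finset.range (n + 1), E ℤ (3 * m + 1)) := by
    rw [map_prod]
    apply Finset.prod_congr rfl
    intro m _
    ext k
    rw [coeff_map, E, E, coeff_mk, coeff_mk]
    split_ifs <;> simp
  rw [h, coeff_map]
  rfl

/-- the generating function -/
noncomputable def F (x : ℂ) : ℂ := ∑' n, (f n : ℂ) * x ^ n

lemma F_val {x : ℂ} {τ : ℝ} (hτ : 0 < τ) (hx : ‖x‖ = Real.exp (-τ)) :
    F x = Complex.exp (∑' i, g i x) := by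
  rw [← F_eq hτ hx]
  unfold F
  congr 1
  ext n
  rw [a_eq]

lemma f_summable {r : ℝ} (hr : 0 ≤ r) (hr1 : r < 1) : Summable fun n => |(f n : ℝ)| * r ^ n := by
  have h := a_summable hr hr1
  convert! h using 1
  ext n
  rw [a_eq, Complex.norm_intCast]

lemma F_le {x : ℂ} (hx1 : ‖x‖ < 1) : ‖F x‖ ≤ ∑' n, |(f n : ℝ)| * ‖x‖ ^ n := by
  have h := f_summable (norm_nonneg x) hx1
  unfold F
  apply tsum_of_norm_bounded h.hasSum
  intro n
  rw [norm_mul, norm_pow, Complex.norm_intCast]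

/-! ### discrete Fourier transform -/

lemma root_sum {p : ℕ} {ζ : ℂ} (hζ : IsPrimitiveRoot ζ p) (k : ℕ) :
    ∑ j ∈ Finset.range p, ζ ^ (j * k) = if p ∣ k then (p : ℂ) else 0 := by
  have h1 : ∑ j ∈ Finset.range p, ζ ^ (j * k) = ∑ j ∈ Finset.range p, (ζ ^ k) ^ j := by
    apply Finset.sum_congr rfl
    intro j _
    rw [← pow_mul, mul_comm]
  rw [h1]
  split_ifs with h
  · rw [(hζ.pow_eq_one_iff_dvd k).2 h]
    simp
  · have h2 : ζ ^ k - 1 ≠ 0 := by
      intro h3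
      exact h ((hζ.pow_eq_one_iff_dvd k).1 (sub_eq_zero.1 h3))
    have h3 := mul_geom_sum (ζ ^ k) p
    rw [← pow_mul, mul_comm k p, pow_mul, hζ.pow_eq_one, one_pow, sub_self] at h3
    exact (mul_eq_zero.1 h3).resolve_left h2

/-- Fourier coefficients of a periodic sequence -/
noncomputable def hat (p : ℕ) (ζ : ℂ) (ε : ℕ → ℝ) (j : ℕ) : ℂ :=
  (1 / p) * ∑ r ∈ Finset.range p, (ε r : ℂ) * ζ ^ (j * (p - r))

lemma hat_norm {p : ℕ} (hp : 1 ≤ p) {ζ : ℂ} (hζ : ‖ζ‖ = 1) (ε : ℕ → ℝ) (hε : ∀ n, |ε n| ≤ 1)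
    (j : ℕ) : ‖hat p ζ ε j‖ ≤ 1 := by
  unfold hat
  rw [norm_mul]
  have hp' : (0 : ℝ) < p := by exact_mod_cast hp
  have h1 : ‖∑ r ∈ Finset.range p, (ε r : ℂ) * ζ ^ (j * (p - r))‖ ≤ p := by
    refine (norm_sum_le _ _).trans ?_
    calc ∑ r ∈ Finset.range p, ‖(ε r : ℂ) * ζ ^ (j * (p - r))‖ ≤ ∑ r ∈ Finset.range p, (1 : ℝ) := by
          apply Finset.sum_le_sum
          intro r _
          rw [norm_mul, norm_pow, hζ, one_pow, mul_one, Complex.norm_real]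
          exact hε r
      _ = p := by simp
  have h2 : ‖(1 / p : ℂ)‖ = 1 / p := by simp
  rw [h2]
  calc 1 / (p : ℝ) * ‖∑ r ∈ Finset.range p, (ε r : ℂ) * ζ ^ (j * (p - r))‖ ≤ 1 / p * p :=
        mul_le_mul_of_nonneg_left h1 (by positivity)
    _ = 1 := by field_simp

lemma hat_inv {p : ℕ} (hp : 1 ≤ p) {ζ : ℂ} (hζ : IsPrimitiveRoot ζ p) (ε : ℕ → ℝ)
    (hε : ∀ n, ε n = ε (n % p)) (n : ℕ) :
    (ε n : ℂ) = ∑ j ∈ Finset.range p, hat p ζ ε j * ζ ^ (j * n) := by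
  unfold hat
  have h1 : ∀ j ∈ Finset.range p, 1 / (p : ℂ) * (∑ r ∈ Finset.range p, (ε r : ℂ) *
      ζ ^ (j * (p - r))) * ζ ^ (j * n) = ∑ r ∈ Finset.range p, (1 / (p : ℂ) * (ε r : ℂ)) *
      ζ ^ (j * (p - r + n)) := by
    intro j _
    rw [Finset.mul_sum, Finset.sum_mul]
    apply Finset.sum_congr rfl
    intro r _
    rw [mul_add, pow_add]
    ring
  rw [Finset.sum_congr rfl h1, Finset.sum_comm]
  have h2 : ∀ r ∈ Finset.range p, ∑ j ∈ Finset.range p, (1 / (p : ℂ) * (ε r : ℂ)) *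
      ζ ^ (j * (p - r + n)) = if r = n % p then (ε r : ℂ) else 0 := by
    intro r hr
    rw [Finset.mem_range] at hr
    rw [← Finset.mul_sum, root_sum hζ]
    have hp' : (p : ℂ) ≠ 0 := by
      have : p ≠ 0 := by omega
      exact_mod_cast this
    have h3 : p ∣ p - r + n ↔ r = n % p := by
      constructor
      · rintro ⟨k, hk⟩
        have h4 : n = r + p * (k - 1) := by
          rcases Nat.eq_zero_or_pos k with h | h
          · subst h; omega
          · obtain ⟨k', rfl⟩ : ∃ k', k = k' + 1 := ⟨k - 1, by omega⟩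
            rw [Nat.add_sub_cancel]
            rw [mul_add, mul_one] at hk
            omega
        rw [h4, Nat.add_mul_mod_self_left, Nat.mod_eq_of_lt hr]
      · intro h
        have h4 := Nat.mod_add_div n p
        rw [← h] at h4
        refine ⟨1 + n / p, ?_⟩
        rw [mul_add, mul_one]
        omega
    by_cases h : r = n % p
    · rw [if_pos (h3.2 h), if_pos h]
      field_simp
    · rw [if_neg (fun h5 => h (h3.1 h5)), if_neg h, mul_zero]
  rw [Finset.sum_congr rfl h2, Finset.sum_ite_eq', if_pos (Finset.mem_range.2 (Nat.mod_lt _ hp)),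
    ← hε]

lemma sum_le {p N : ℕ} (hp : 1 ≤ p) (h : ∀ n, N ≤ n → Int.sign (f (n + p)) = Int.sign (f n))
    {ζ : ℂ} (hζ : IsPrimitiveRoot ζ p) {r : ℝ} (hr : 0 ≤ r) (hr1 : r < 1) :
    ∑' n, |(f n : ℝ)| * r ^ n ≤ 2 * ∑ n ∈ Finset.range N, |(f n : ℝ)| +
      ∑ j ∈ Finset.range p, ‖F (ζ ^ j * r)‖ := by
  have hζ1 : ‖ζ‖ = 1 := by
    have h1 := hζ.pow_eq_one
    have h2 : ‖ζ‖ ^ p = 1 := by rw [← norm_pow, h1, norm_one]
    exact (pow_eq_one_iff_of_nonneg (norm_nonneg _) (by omega)).1 h2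
  -- periodicity
  have hper : ∀ n k, N ≤ n → Int.sign (f (n + p * k)) = Int.sign (f n) := by
    intro n k hn
    induction k with
    | zero => simp
    | succ k ih => rw [mul_add, mul_one, ← add_assoc, h _ (by omega), ih]
  set ε : ℕ → ℝ := fun n => ((Int.sign (f (n % p + p * N)) : ℤ) : ℝ) with hεdef
  have hNp : N ≤ p * N := by nlinarith
  have hε1 : ∀ n, |ε n| ≤ 1 := by
    intro n
    rw [hεdef]
    simp only
    rcases Int.sign_trichotomy (f (n % p + p * N)) with h | h | h <;> rw [h] <;> simp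
  have hε2 : ∀ n, ε n = ε (n % p) := by
    intro n
    rw [hεdef]
    simp only [Nat.mod_mod]
  have hε3 : ∀ n, N ≤ n → ε n = ((Int.sign (f n) : ℤ) : ℝ) := by
    intro n hn
    rw [hεdef]
    simp only
    congr 1
    have h1 := Nat.mod_add_div n p
    rcases le_total N (n / p) with h2 | h2
    · obtain ⟨k, hk⟩ := Nat.exists_eq_add_of_le h2
      have h3 := hper (n % p + p * N) k (by omega)
      rw [← h3]
      congr 2
      rw [add_assoc, ← mul_add, ← hk, h1]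
    · obtain ⟨k, hk⟩ := Nat.exists_eq_add_of_le h2
      have h3 := hper n k hn
      rw [← h3]
      congr 2
      rw [hk, mul_add, ← add_assoc, h1]
  have hε4 : ∀ n, N ≤ n → |(f n : ℝ)| = ε n * f n := by
    intro n hn
    rw [hε3 n hn]
    have h1 : (Int.sign (f n)) * f n = |f n| := Int.sign_mul_self_eq_abs (f n)
    have h2 : ((|f n| : ℤ) : ℝ) = |(f n : ℝ)| := Int.cast_abs
    rw [← h2, ← h1]
    push_cast
    ring
  have hs := f_summable hr hr1
  have hs2 : Summable fun n => ε n * f n * r ^ n := by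
    apply Summable.of_norm_bounded hs
    intro n
    rw [norm_mul, norm_mul, Real.norm_eq_abs, Real.norm_eq_abs, Real.norm_eq_abs,
      abs_of_nonneg (by positivity : (0 : ℝ) ≤ r ^ n)]
    apply mul_le_mul_of_nonneg_right _ (by positivity)
    calc |ε n| * |(f n : ℝ)| ≤ 1 * |(f n : ℝ)| :=
          mul_le_mul_of_nonneg_right (hε1 n) (abs_nonneg _)
      _ = _ := one_mul _
  have h1 : ∑' n, |(f n : ℝ)| * r ^ n - ∑' n, ε n * f n * r ^ n ≤
      2 * ∑ n ∈ Finset.range N, |(f n : ℝ)| := by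
    rw [← hs.tsum_sub hs2, tsum_eq_sum (s := Finset.range N), Finset.mul_sum]
    · apply Finset.sum_le_sum
      intro n _
      have h2 : -|(f n : ℝ)| ≤ ε n * f n := by
        have : |ε n * f n| ≤ |(f n : ℝ)| := by
          rw [abs_mul]
          calc |ε n| * |(f n : ℝ)| ≤ 1 * |(f n : ℝ)| :=
                mul_le_mul_of_nonneg_right (hε1 n) (abs_nonneg _)
            _ = _ := one_mul _
        have := neg_abs_le (ε n * f n)
        linarith
      have h3 : 0 ≤ r ^ n := by positivity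
      have h4 : r ^ n ≤ 1 := pow_le_one₀ hr hr1.le
      have h5 := abs_nonneg (f n : ℝ)
      rw [← sub_mul]
      calc (|(f n : ℝ)| - ε n * f n) * r ^ n ≤ (2 * |(f n : ℝ)|) * r ^ n :=
            mul_le_mul_of_nonneg_right (by linarith) h3
        _ ≤ (2 * |(f n : ℝ)|) * 1 := mul_le_mul_of_nonneg_left h4 (by positivity)
        _ = _ := mul_one _
    · intro n hn
      rw [Finset.mem_range, not_lt] at hn
      rw [hε4 n hn, sub_self]
  have h2 : ((∑' n, ε n * f n * r ^ n : ℝ) : ℂ) = ∑ j ∈ Finset.range p, hat p ζ ε j *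
      F (ζ ^ j * r) := by
    have h3 : ∀ j, Summable fun n => (f n : ℂ) * (ζ ^ j * r) ^ n := by
      intro j
      apply Summable.of_norm_bounded hs
      intro n
      rw [norm_mul, norm_pow, norm_mul, norm_pow, hζ1, one_pow, one_mul, Complex.norm_intCast,
        Complex.norm_real, Real.norm_of_nonneg hr]
    rw [Complex.ofReal_tsum]
    unfold F
    have h4 : ∀ j ∈ Finset.range p, hat p ζ ε j * ∑' n, (f n : ℂ) * (ζ ^ j * r) ^ n =
        ∑' n, hat p ζ ε j * ((f n : ℂ) * (ζ ^ j * r) ^ n) := fun j _ => tsum_mul_left.symm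
    rw [Finset.sum_congr rfl h4, ← Summable.tsum_finsetSum (fun j _ => (h3 j).mul_left _)]
    congr 1
    ext n
    push_cast
    rw [hat_inv hp hζ ε hε2 n, Finset.sum_mul, Finset.sum_mul]
    apply Finset.sum_congr rfl
    intro j _
    rw [mul_pow, ← pow_mul]
    ring
  have h3 : ∑' n, ε n * f n * r ^ n ≤ ∑ j ∈ Finset.range p, ‖F (ζ ^ j * r)‖ := by
    calc ∑' n, ε n * f n * r ^ n ≤ |∑' n, ε n * f n * r ^ n| := le_abs_self _
      _ = ‖((∑' n, ε n * f n * r ^ n : ℝ) : ℂ)‖ := by rw [Complex.norm_real, Real.norm_eq_abs]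
      _ = ‖∑ j ∈ Finset.range p, hat p ζ ε j * F (ζ ^ j * r)‖ := by rw [h2]
      _ ≤ ∑ j ∈ Finset.range p, ‖hat p ζ ε j * F (ζ ^ j * r)‖ := norm_sum_le _ _
      _ ≤ _ := by
          apply Finset.sum_le_sum
          intro j _
          rw [norm_mul]
          calc ‖hat p ζ ε j‖ * ‖F (ζ ^ j * r)‖ ≤ 1 * ‖F (ζ ^ j * r)‖ :=
                mul_le_mul_of_nonneg_right (hat_norm hp hζ1 ε hε1 j) (norm_nonneg _)
            _ = _ := one_mul _
  linarith

/-! ### numerical bounds -/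

lemma T_norm_le {ζ s : ℂ} (hζ : ‖ζ‖ = 1) (i : ℕ) : ‖T ζ s i‖ ≤ 1 / (3 * ‖s‖) *
    (1 / ((i : ℝ) + 1) ^ 2) := by
  have h1 : ‖((i : ℂ) + 1)‖ = (i : ℝ) + 1 := by
    have : ((i : ℂ) + 1) = ((i + 1 : ℕ) : ℂ) := by push_cast; rfl
    rw [this, Complex.norm_natCast]; push_cast; rfl
  unfold T
  split_ifs
  · rw [norm_div, norm_pow, norm_neg, hζ, one_pow, norm_mul, norm_mul, norm_pow, h1]
    apply le_of_eq
    rw [Complex.norm_ofNat]
    rw [div_mul_div_comm, one_mul]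
    congr 1
    ring
  · rw [norm_zero]
    positivity

lemma tail_sum (c : ℝ) (K : ℕ) :
    Summable (fun i : ℕ => c * (1 / (((i + K : ℕ) : ℝ) + 1) ^ 2)) ∧
    ∑' i : ℕ, c * (1 / (((i + K : ℕ) : ℝ) + 1) ^ 2) =
      c * (Real.pi ^ 2 / 6 - ∑ i ∈ Finset.range K, 1 / ((i : ℝ) + 1) ^ 2) := by
  have h1 : HasSum (fun i : ℕ => 1 / ((i : ℝ) + 1) ^ 2) (Real.pi ^ 2 / 6) := by
    have h := (hasSum_nat_add_iff (f := fun n : ℕ => (1 : ℝ) / (n : ℝ) ^ 2) 1
      (g := Real.pi ^ 2 / 6)).2 (by simpa using hasSum_zeta_two)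
    convert! h using 1
    ext i
    push_cast
    rfl
  have h2 : HasSum (fun i : ℕ => 1 / (((i + K : ℕ) : ℝ) + 1) ^ 2)
      (Real.pi ^ 2 / 6 - ∑ i ∈ Finset.range K, 1 / ((i : ℝ) + 1) ^ 2) := by
    rw [hasSum_nat_add_iff (f := fun i : ℕ => 1 / ((i : ℝ) + 1) ^ 2) K, sub_add_cancel]
    exact h1
  have h3 := h2.mul_left c
  exact ⟨h3.summable, h3.tsum_eq⟩

lemma pi_sq_lt : Real.pi ^ 2 / 6 < 1.645 := by
  have h1 := Real.pi_lt_d4
  have h2 := Real.pi_pos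
  nlinarith

lemma T_summable {ζ s : ℂ} (hζ : ‖ζ‖ = 1) : Summable (T ζ s) :=
  Summable.of_norm_bounded (summable_sq.mul_left _) (T_norm_le hζ)

lemma re_split {ζ s : ℂ} (hζ : ‖ζ‖ = 1) (K : ℕ) :
    |(∑' i, T ζ s i).re - ∑ i ∈ Finset.range K, (T ζ s i).re| ≤ 1 / (3 * ‖s‖) *
      (Real.pi ^ 2 / 6 - ∑ i ∈ Finset.range K, 1 / ((i : ℝ) + 1) ^ 2) := by
  have h1 := (T_summable (s := s) hζ).sum_add_tsum_nat_add K
  have h2 : (∑' i, T ζ s i).re - ∑ i ∈ Finset.range K, (T ζ s i).re =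
      (∑' i, T ζ s (i + K)).re := by
    rw [← h1, Complex.add_re, Complex.re_sum]
    ring
  rw [h2, ← (tail_sum _ K).2]
  refine (Complex.abs_re_le_norm _).trans ?_
  apply tsum_of_norm_bounded (tail_sum _ K).1.hasSum
  intro i
  exact T_norm_le hζ (i + K)

lemma cube_root_cases {ζ : ℂ} (h : ζ ^ 3 = 1) : ζ = 1 ∨ ζ ^ 2 + ζ + 1 = 0 := by
  have h1 : (ζ - 1) * (ζ ^ 2 + ζ + 1) = 0 := by linear_combination h
  rcases mul_eq_zero.1 h1 with h2 | h2
  · exact Or.inl (sub_eq_zero.1 h2)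
  · exact Or.inr h2

lemma re_of_cube {ζ : ℂ} (hζ : ‖ζ‖ = 1) (h : ζ ^ 2 + ζ + 1 = 0) : ζ.re = -1 / 2 := by
  have h1 := congrArg Complex.re h
  have h2 := congrArg Complex.im h
  have h3 : ζ.re ^ 2 + ζ.im ^ 2 = 1 := by
    have := Complex.sq_norm ζ
    rw [hζ, Complex.normSq_apply] at this
    nlinarith
  simp [pow_two] at h1 h2
  nlinarith

lemma T3_le {ζ : ℂ} (hζ : ‖ζ‖ = 1) : (T ζ 1 0).re + (T ζ 1 1).re + (T ζ 1 2).re ≤ 0.088 := by
  have hT0 : T ζ 1 0 = if ζ ^ 3 = 1 then (-ζ) / 3 else 0 := by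
    unfold T; norm_num
  have hT1 : T ζ 1 1 = if ζ ^ 6 = 1 then (-ζ) ^ 2 / 12 else 0 := by
    unfold T; norm_num
  have hT2 : T ζ 1 2 = if ζ ^ 9 = 1 then (-ζ) ^ 3 / 27 else 0 := by
    unfold T; norm_num
  have hre : ∀ z : ℂ, ‖z‖ = 1 → z.re ≤ 1 := fun z hz => by
    have := Complex.re_le_norm z
    rwa [hz] at this
  by_cases h3 : ζ ^ 3 = 1
  · have h6 : ζ ^ 6 = 1 := by rw [show 6 = 3 * 2 by norm_num, pow_mul, h3, one_pow]
    have h9 : ζ ^ 9 = 1 := by rw [show 9 = 3 * 3 by norm_num, pow_mul, h3, one_pow]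
    rw [hT0, hT1, hT2, if_pos h3, if_pos h6, if_pos h9]
    rcases cube_root_cases h3 with h | h
    · subst h
      norm_num
    · have hr := re_of_cube hζ h
      have e1 : (-ζ) ^ 2 / 12 = (-ζ - 1) / 12 := by linear_combination h / 12
      have e2 : (-ζ) ^ 3 / 27 = -1 / 27 := by
        have : (-ζ) ^ 3 = - ζ ^ 3 := by ring
        rw [this, h3]
      rw [e1, e2]
      have e3 : (-ζ / 3).re = 1 / 6 := by
        rw [show (-ζ / 3 : ℂ) = ((1 / 3 : ℝ) : ℂ) * (-ζ) by push_cast; ring, Complex.re_ofReal_mul,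
          Complex.neg_re, hr]
        norm_num
      have e4 : ((-ζ - 1) / 12).re = -1 / 24 := by
        rw [show ((-ζ - 1) / 12 : ℂ) = ((1 / 12 : ℝ) : ℂ) * (-ζ - 1) by push_cast; ring,
          Complex.re_ofReal_mul, Complex.sub_re, Complex.neg_re, hr, Complex.one_re]
        norm_num
      have e5 : (-1 / 27 : ℂ).re = -1 / 27 := by
        rw [show (-1 / 27 : ℂ) = ((-1 / 27 : ℝ) : ℂ) by push_cast; ring, Complex.ofReal_re]
      rw [e3, e4, e5]
      norm_num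
  · rw [hT0, if_neg h3, Complex.zero_re, zero_add, hT1, hT2]
    have b1 : ((-ζ) ^ 2 / 12).re ≤ 1 / 12 := by
      rw [show ((-ζ) ^ 2 / 12 : ℂ) = ((1 / 12 : ℝ) : ℂ) * (-ζ) ^ 2 by push_cast; ring,
        Complex.re_ofReal_mul]
      have := hre ((-ζ) ^ 2) (by rw [norm_pow, norm_neg, hζ, one_pow])
      linarith
    have b2 : ((-ζ) ^ 3 / 27).re ≤ 1 / 27 := by
      rw [show ((-ζ) ^ 3 / 27 : ℂ) = ((1 / 27 : ℝ) : ℂ) * (-ζ) ^ 3 by push_cast; ring,
        Complex.re_ofReal_mul]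
      have := hre ((-ζ) ^ 3) (by rw [norm_pow, norm_neg, hζ, one_pow])
      linarith
    by_cases h6 : ζ ^ 6 = 1
    · by_cases h9 : ζ ^ 9 = 1
      · exfalso
        apply h3
        calc ζ ^ 3 = ζ ^ 3 * ζ ^ 6 := by rw [h6, mul_one]
          _ = ζ ^ 9 := by ring
          _ = 1 := h9
      · rw [if_pos h6, if_neg h9, Complex.zero_re, add_zero]
        exact b1.trans (by norm_num)
    · by_cases h9 : ζ ^ 9 = 1
      · rw [if_neg h6, if_pos h9, Complex.zero_re, zero_add]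
        exact b2.trans (by norm_num)
      · rw [if_neg h6, if_neg h9]
        norm_num

lemma upper {ζ : ℂ} (hζ : ‖ζ‖ = 1) : (∑' i, T ζ 1 i).re < 0.183 := by
  have h1 := re_split (s := 1) hζ 3
  have h2 := T3_le hζ
  have h3 := pi_sq_lt
  rw [norm_one] at h1
  simp only [Finset.sum_range_succ, Finset.sum_range_zero] at h1
  have h4 := (abs_le.1 h1).2
  norm_num at h4 h2 h3 ⊢
  linarith

/-- `√3 / 2` -/
noncomputable def q : ℝ := √3 / 2

lemma q_sq : q ^ 2 = 3 / 4 := by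
  unfold q
  rw [div_pow, Real.sq_sqrt (by norm_num)]
  norm_num

/-- `e^(2πi/3)` -/
noncomputable def ω : ℂ := ⟨-1 / 2, q⟩

/-- the direction -/
noncomputable def s0 : ℂ := ⟨1, -q⟩

lemma ω_sq : ω ^ 2 + ω + 1 = 0 := by
  have h := q_sq
  apply Complex.ext
  · simp [ω, pow_two]
    nlinarith
  · simp [ω, pow_two]
    ring

lemma ω_cube : ω ^ 3 = 1 := by linear_combination (ω - 1) * ω_sq

lemma ω_norm : ‖ω‖ = 1 := by
  have h1 : ‖ω‖ ^ 2 = 1 := by
    rw [Complex.sq_norm, Complex.normSq_apply]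
    have h := q_sq
    simp [ω]
    nlinarith
  exact (pow_eq_one_iff_of_nonneg (norm_nonneg _) (by norm_num)).1 h1

lemma s0_norm_sq : ‖s0‖ ^ 2 = 7 / 4 := by
  rw [Complex.sq_norm, Complex.normSq_apply]
  have h := q_sq
  simp [s0]
  nlinarith

lemma s0_norm : 1.322 ≤ ‖s0‖ := by
  have h := s0_norm_sq
  by_contra hlt
  push Not at hlt
  have := norm_nonneg s0
  nlinarith

lemma s0_ne : s0 ≠ 0 := by
  intro h
  have := s0_norm
  rw [h, norm_zero] at this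
  norm_num at this

lemma s0_inv : s0⁻¹ = ((4 / 7 : ℝ) : ℂ) * ⟨1, q⟩ := by
  have h := q_sq
  apply inv_eq_of_mul_eq_one_right
  apply Complex.ext
  · simp [s0]
    nlinarith
  · simp [s0]
    ring

/-- real parts -/
noncomputable def r (k : ℕ) : ℝ := ((-ω) ^ k * s0⁻¹).re

lemma r_zero : r 0 = 4 / 7 := by
  unfold r
  rw [pow_zero, one_mul, s0_inv, Complex.re_ofReal_mul]
  norm_num

lemma r_one : r 1 = 5 / 7 := by
  have h := q_sq
  unfold r
  rw [pow_one, s0_inv, mul_left_comm, Complex.re_ofReal_mul]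
  simp [ω]
  nlinarith

lemma r_rec (k : ℕ) : r (k + 2) = r (k + 1) - r k := by
  unfold r
  rw [← Complex.sub_re]
  congr 1
  linear_combination ((-ω) ^ k * s0⁻¹) * ω_sq

lemma T_re (i : ℕ) : (T ω s0 i).re = 1 / (3 * ((i : ℝ) + 1) ^ 2) * r (i + 1) := by
  have h1 : T ω s0 i = ((1 / (3 * ((i : ℝ) + 1) ^ 2) : ℝ) : ℂ) * ((-ω) ^ (i + 1) * s0⁻¹) := by
    unfold T
    rw [if_pos (by rw [pow_mul, ω_cube, one_pow])]
    have hi : ((i : ℂ) + 1) ≠ 0 := Nat.cast_add_one_ne_zero i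
    have hs := s0_ne
    push_cast
    field_simp
  rw [h1, Complex.re_ofReal_mul]
  rfl

lemma lower : 0.19 < (∑' i, T ω s0 i).re := by
  have h1 := re_split (s := s0) ω_norm 9
  have h3 := pi_sq_lt
  have h5 := s0_norm
  simp only [Finset.sum_range_succ, Finset.sum_range_zero, T_re] at h1
  have r2 := r_rec 0
  have r3 := r_rec 1
  have r4 := r_rec 2
  have r5 := r_rec 3
  have r6 := r_rec 4
  have r7 := r_rec 5
  have r8 := r_rec 6
  have r9 := r_rec 7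
  norm_num at r2 r3 r4 r5 r6 r7 r8 r9 h1
  rw [r_zero, r_one] at r2
  rw [r_one, r2] at r3
  rw [r3, r2] at r4
  rw [r4, r3] at r5
  rw [r5, r4] at r6
  rw [r6, r5] at r7
  rw [r7, r6] at r8
  rw [r8, r7] at r9
  rw [r9, r8, r7, r6, r5, r4, r3, r2, r_one] at h1
  have h4 := (abs_le.1 h1).1
  have h6 : (‖s0‖)⁻¹ ≤ 1 / 1.322 := by
    rw [← one_div]
    exact one_div_le_one_div_of_le (by norm_num) h5
  have h7 : 0 ≤ (‖s0‖)⁻¹ := by positivity
  have h8 := Real.pi_gt_three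
  norm_num at h4 h6 h3 ⊢
  nlinarith

/-! ### conclusion -/

lemma F_norm {ζ s : ℂ} (hζ : ‖ζ‖ = 1) (hs : s.re = 1) {τ : ℝ} (hτ : 0 < τ) :
    ‖F (ζ * Complex.exp (-(τ * s)))‖ =
      Real.exp ((∑' i, g i (ζ * Complex.exp (-(τ * s)))).re) := by
  rw [F_val hτ (norm_ray hζ hs τ), Complex.norm_exp]

lemma tendsto_re {ζ s : ℂ} (hζ : ‖ζ‖ = 1) (hs : s.re = 1) :
    Tendsto (fun τ : ℝ => τ * (∑' i, g i (ζ * Complex.exp (-(τ * s)))).re) (𝓝[>] 0)
      (𝓝 (∑' i, T ζ s i).re) := by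
  have h := (Complex.continuous_re.tendsto _).comp (tendsto_ray hζ hs)
  refine h.congr fun τ => ?_
  simp [Function.comp]

theorem not_periodic (p N : ℕ) (hp : 1 ≤ p)
    (h : ∀ n, N ≤ n → Int.sign (f (n + p)) = Int.sign (f n)) : False := by
  have hζ := Complex.isPrimitiveRoot_exp p (by omega)
  set ζ := Complex.exp (2 * Real.pi * Complex.I / p) with hζdef
  have hζ1 : ‖ζ‖ = 1 := by
    have h1 := hζ.pow_eq_one
    have h2 : ‖ζ‖ ^ p = 1 := by rw [← norm_pow, h1, norm_one]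
    exact (pow_eq_one_iff_of_nonneg (norm_nonneg _) (by omega)).1 h2
  have hζj : ∀ j, ‖ζ ^ j‖ = 1 := fun j => by rw [norm_pow, hζ1, one_pow]
  set C : ℝ := 2 * ∑ n ∈ Finset.range N, |(f n : ℝ)| with hC
  have hC0 : 0 ≤ C := by rw [hC]; positivity
  have e1 : ∀ᶠ τ : ℝ in 𝓝[>] 0, 0.19 < τ * (∑' i, g i (ω * Complex.exp (-(τ * s0)))).re :=
    (tendsto_re ω_norm rfl).eventually_const_lt lower
  have e2 : ∀ᶠ τ : ℝ in 𝓝[>] 0, ∀ j ∈ Finset.range p,
      τ * (∑' i, g i (ζ ^ j * Complex.exp (-(τ * 1)))).re < 0.183 := by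
    rw [Filter.eventually_all_finset]
    intro j _
    exact (tendsto_re (hζj j) Complex.one_re).eventually_lt_const (upper (hζj j))
  have e3 : ∀ᶠ τ : ℝ in 𝓝[>] 0, C + p < Real.exp (0.007 * τ⁻¹) := by
    have h1 : Tendsto (fun τ : ℝ => Real.exp (0.007 * τ⁻¹)) (𝓝[>] 0) atTop :=
      Real.tendsto_exp_atTop.comp (tendsto_inv_nhdsGT_zero.const_mul_atTop (by norm_num))
    exact h1.eventually_gt_atTop _
  have e4 : ∀ᶠ τ : ℝ in 𝓝[>] 0, 0 < τ := self_mem_nhdsWithin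
  obtain ⟨τ, h1, h2, h3, hτ⟩ := (e1.and (e2.and (e3.and e4))).exists
  have hx := norm_ray ω_norm (s := s0) rfl τ
  have hx1 : ‖ω * Complex.exp (-(τ * s0))‖ < 1 := by rw [hx]; exact exp_lt_one' (by linarith)
  have k1 := F_le hx1
  rw [F_norm ω_norm rfl hτ, hx] at k1
  have k2 := sum_le hp h hζ (Real.exp_pos (-τ)).le (exp_lt_one' (by linarith : -τ < 0))
  have k3 : ∑ j ∈ Finset.range p, ‖F (ζ ^ j * ((Real.exp (-τ) : ℝ) : ℂ))‖ ≤
      p * Real.exp (0.183 * τ⁻¹) := by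
    calc ∑ j ∈ Finset.range p, ‖F (ζ ^ j * ((Real.exp (-τ) : ℝ) : ℂ))‖
        ≤ ∑ j ∈ Finset.range p, Real.exp (0.183 * τ⁻¹) := by
          apply Finset.sum_le_sum
          intro j hj
          have e5 : (((Real.exp (-τ) : ℝ)) : ℂ) = Complex.exp (-(τ * 1)) := by
            push_cast; rw [mul_one]
          rw [e5, F_norm (hζj j) Complex.one_re hτ]
          apply Real.exp_le_exp.2
          have h4 := h2 j hj
          rw [← div_eq_mul_inv, le_div_iff₀ hτ]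
          linarith
      _ = _ := by simp
  have k4 : Real.exp (0.19 * τ⁻¹) ≤
      Real.exp ((∑' i, g i (ω * Complex.exp (-(τ * s0)))).re) := by
    apply Real.exp_le_exp.2
    rw [← div_eq_mul_inv, div_le_iff₀ hτ]
    linarith
  have k5 : Real.exp (0.19 * τ⁻¹) = Real.exp (0.007 * τ⁻¹) * Real.exp (0.183 * τ⁻¹) := by
    rw [← Real.exp_add]; congr 1; ring
  have k6 : 1 ≤ Real.exp (0.183 * τ⁻¹) := by
    apply Real.one_le_exp
    positivity
  have k7 : Real.exp (0.007 * τ⁻¹) * Real.exp (0.183 * τ⁻¹) ≤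
      C + p * Real.exp (0.183 * τ⁻¹) := by
    rw [← k5]
    linarith
  have k8 : (C + p) * Real.exp (0.183 * τ⁻¹) <
      Real.exp (0.007 * τ⁻¹) * Real.exp (0.183 * τ⁻¹) :=
    mul_lt_mul_of_pos_right h3 (by positivity)
  nlinarith

theorem result : ¬ ∃ p N : ℕ, 1 ≤ p ∧ ∀ n, N ≤ n → Int.sign (f (n + p)) = Int.sign (f n) := by
  rintro ⟨p, N, hp, h⟩
  exact not_periodic p N hp h

end Pool.Agent.Results.MP_5217bf_nt.NotPeriodic
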